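import Pool.Agent.KS6_50.HB.CodLp
import Pool.Agent.KS6_50.HB.Perm
import Pool.Agent.KS6_50.HB.FinA

set_option autoImplicit false

/-!
# MP_69de12_an: approximation numbers against Hilbert numbers, constants adapted to the spaces

For all `X, Y` one has `a_n(S) ≤ (n+1) G_n(S)`.  Here the constant `n + 1` is replaced by a product
`α β`, where `α` depends on `X` and `β` on `Y` only; for operators from a quotient of a subspace of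
`L_p(μ)` into a subspace of `L_q(ν)` this gives `a_n(S) ≤ (n+1)^(|1/2-1/p|+|1/2-1/q|) G_n(S)`, and
for `p ≤ 2 ≤ q` and for `q ≤ 2 ≤ p` this exponent is optimal, by the formal identities
`ℓ_p → ℓ_q` and `ℓ_p^N → ℓ_q^N`.

The approximation numbers `approxNumber`, the Hilbert numbers `hilbertNumber` and the geometric
mean `geomMean` are those of the library module `HilbertBound`.
-/

open MeasureTheory
open scoped ENNReal

namespace Pool.Agent.Results.MP_69de12_an.LpRates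

open Pool.Agent.KS6_50.HB Pool.Agent.Results.MP_69de12_an.HilbertBound

/-- the exponent `|1/2 - 1/p|` (with `1 / ∞ = 0`) -/
noncomputable def rate (p : ℝ≥0∞) : ℝ := |1 / 2 - 1 / p.toReal|

/-- `X` is isometric to a quotient of a linear subspace of `E`. -/
def QuotSub (𝕜 : Type*) [RCLike 𝕜] (E X : Type*) [NormedAddCommGroup E] [NormedSpace 𝕜 E]
    [NormedAddCommGroup X] [NormedSpace 𝕜 X] : Prop :=
  ∃ (Z : Submodule 𝕜 E) (π : Z →L[𝕜] X), MetricSurj π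

/-- `Y` is isometric to a linear subspace of `E`. -/
def SubOf (𝕜 : Type*) [RCLike 𝕜] (E Y : Type*) [NormedAddCommGroup E] [NormedSpace 𝕜 E]
    [NormedAddCommGroup Y] [NormedSpace 𝕜 Y] : Prop :=
  Nonempty (Y →ₗᵢ[𝕜] E)

/-- `a = 1/2`, or `X` is isometric to a quotient of a subspace of `L_p(μ)` and `a = |1/2 - 1/p|` -/
def DomainRate (𝕜 : Type*) [RCLike 𝕜] (X : Type*) [NormedAddCommGroup X] [NormedSpace 𝕜 X]
    {Ω : Type*} [MeasurableSpace Ω] (μ : Measure Ω) (p : ℝ≥0∞) [Fact (1 ≤ p)] (a : ℝ) : Prop :=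
  a = 1 / 2 ∨ QuotSub 𝕜 (Lp 𝕜 p μ) X ∧ a = rate p

/-- `b = 1/2`, or `Y` is isometric to a subspace of `L_q(ν)` and `b = |1/2 - 1/q|` -/
def CodomainRate (𝕜 : Type*) [RCLike 𝕜] (Y : Type*) [NormedAddCommGroup Y] [NormedSpace 𝕜 Y]
    {Ω : Type*} [MeasurableSpace Ω] (ν : Measure Ω) (q : ℝ≥0∞) [Fact (1 ≤ q)] (b : ℝ) : Prop :=
  b = 1 / 2 ∨ SubOf 𝕜 (Lp 𝕜 q ν) Y ∧ b = rate q

/-- the `k`-th coordinate of a sequence in `ℓ_p` -/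
def coord {𝕜 : Type*} [RCLike 𝕜] {p : ℝ≥0∞} (f : El 𝕜 p) (k : ℕ) : 𝕜 := f k

/-- `S` is the formal identity `ℓ_p → ℓ_q` (spaces of sequences indexed by `ℕ`) -/
def IsFormalId {𝕜 : Type*} [RCLike 𝕜] {p q : ℝ≥0∞} [Fact (1 ≤ p)] [Fact (1 ≤ q)]
    (S : El 𝕜 p →L[𝕜] El 𝕜 q) : Prop :=
  ∀ (f : El 𝕜 p) (k : ℕ), coord (S f) k = coord f k

/-- The operator `S` satisfies `a_n(S) ≥ 1/2`, `h_n(S) ≤ 4 (n+1)^(-ρ)` and
`(n+1)^ρ G_n(S) ≤ 8 e a_n(S)` for all `n`. -/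
def ExtremalRate {𝕜 : Type*} [RCLike 𝕜] {X : Type*} [NormedAddCommGroup X] [NormedSpace 𝕜 X]
    {Y : Type*} [NormedAddCommGroup Y] [NormedSpace 𝕜 Y] (ρ : ℝ) (S : X →L[𝕜] Y) : Prop :=
  ∀ n : ℕ, 1 / 2 ≤ approxNumber n S ∧ hilbertNumber n S ≤ 4 * ((n : ℝ) + 1) ^ (-ρ) ∧
    ((n : ℝ) + 1) ^ ρ * geomMean n S ≤ 8 * Real.exp 1 * approxNumber n S

/-- The operator `S` satisfies `a_n(S) ≥ (n+1)^ρ` and `G_n(S) ≤ 2 e`. -/
def ExtremalAt {𝕜 : Type*} [RCLike 𝕜] {X : Type*} [NormedAddCommGroup X] [NormedSpace 𝕜 X]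
    {Y : Type*} [NormedAddCommGroup Y] [NormedSpace 𝕜 Y] (n : ℕ) (ρ : ℝ) (S : X →L[𝕜] Y) : Prop :=
  ((n : ℝ) + 1) ^ ρ ≤ approxNumber n S ∧ geomMean n S ≤ 2 * Real.exp 1

/-- The formal identity `ℓ_p → ℓ_q` is extremal with the exponent `|1/2 - 1/p| + |1/2 - 1/q|`. -/
def OptInf (𝕜 : Type*) [RCLike 𝕜] (p q : ℝ≥0∞) [Fact (1 ≤ p)] [Fact (1 ≤ q)] : Prop :=
  ∃ S : El 𝕜 p →L[𝕜] El 𝕜 q, IsFormalId S ∧ ExtremalRate (rate p + rate q) S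

/-- Some operator `S : ℓ_p^N → ℓ_q^N` is extremal with the exponent `|1/2 - 1/p| + |1/2 - 1/q|`
for this `n`. -/
def OptFin (𝕜 : Type*) [RCLike 𝕜] (p q : ℝ≥0∞) [Fact (1 ≤ p)] [Fact (1 ≤ q)] (n N : ℕ) : Prop :=
  ∃ S : Fl 𝕜 p N →L[𝕜] Fl 𝕜 q N, ExtremalAt n (rate p + rate q) S

section

variable {𝕜 : Type*} [RCLike 𝕜] {X : Type*} [NormedAddCommGroup X] [NormedSpace 𝕜 X]
  {Y : Type*} [NormedAddCommGroup Y] [NormedSpace 𝕜 Y]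
  {Ω : Type*} [MeasurableSpace Ω] {μ : Measure Ω} {p : ℝ≥0∞} [Fact (1 ≤ p)]

lemma dom_quotSub (h : QuotSub 𝕜 (Lp 𝕜 p μ) X) (N : ℕ) :
    Dom 𝕜 X N ((N : ℝ) ^ |1 / 2 - 1 / p.toReal|) := by
  obtain ⟨Z, π, hπ⟩ := h
  apply dom_quot hπ
  by_cases hp : p = ∞
  · have h : (N : ℝ) ^ |1 / 2 - 1 / p.toReal| = Real.sqrt N := by
      rw [hp, ENNReal.toReal_top, div_zero, sub_zero, abs_of_pos (by norm_num), Real.sqrt_eq_rpow]
    rw [h]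
    exact dom_sqrt 𝕜 _ N
  · exact dom_sub_Lp hp Z N

lemma cod_subLp (h : SubOf 𝕜 (Lp 𝕜 p μ) Y) (N : ℕ) :
    Cod 𝕜 Y N ((N : ℝ) ^ |1 / 2 - 1 / p.toReal|) := by
  obtain ⟨J⟩ := h
  exact cod_isometry J (cod_Lp_all 𝕜 μ p N)

lemma bound_rpow (S : X →L[𝕜] Y) (n : ℕ) {a b : ℝ} (hX : Dom 𝕜 X (n + 1) (((n + 1 : ℕ) : ℝ) ^ a))
    (hY : Cod 𝕜 Y (n + 1) (((n + 1 : ℕ) : ℝ) ^ b)) : Bound (((n : ℝ) + 1) ^ (a + b)) S n := by
  have h := bound_of S n (Real.rpow_nonneg (by positivity) a) (Real.rpow_nonneg (by positivity) b)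
    hX hY
  rw [← Real.rpow_add (by positivity)] at h
  rw [show ((n : ℝ) + 1) = ((n + 1 : ℕ) : ℝ) by push_cast; ring]
  exact h

lemma dom_half (N : ℕ) : Dom 𝕜 X N ((N : ℝ) ^ (1 / 2 : ℝ)) := by
  rw [← Real.sqrt_eq_rpow]; exact dom_sqrt 𝕜 X N

lemma cod_half (N : ℕ) : Cod 𝕜 Y N ((N : ℝ) ^ (1 / 2 : ℝ)) := by
  rw [← Real.sqrt_eq_rpow]; exact cod_sqrt 𝕜 Y N

/-- a check: `L_p(μ)` itself is of this kind -/
lemma quotSub_self : QuotSub 𝕜 (Lp 𝕜 p μ) (Lp 𝕜 p μ) := by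
  refine ⟨⊤, (⊤ : Submodule 𝕜 (Lp 𝕜 p μ)).subtypeL, fun x => le_rfl, fun x' ε hε => ?_⟩
  exact ⟨⟨x', Submodule.mem_top⟩, rfl, by
    have : ‖(⟨x', Submodule.mem_top⟩ : (⊤ : Submodule 𝕜 (Lp 𝕜 p μ)))‖ = ‖x'‖ := rfl
    rw [this]
    linarith⟩

end

lemma rate_add {p q : ℝ≥0∞} [Fact (1 ≤ p)] [Fact (1 ≤ q)] (hp2 : p ≤ 2) (hq2 : 2 ≤ q) :
    rate p + rate q = 1 / p.toReal - 1 / q.toReal := by
  have hp : p ≠ ∞ := ne_top_of_le_ne_top ENNReal.ofNat_ne_top hp2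
  have h1 := one_le_P (p := p) hp
  have h2 : p.toReal ≤ 2 := by
    have := ENNReal.toReal_mono ENNReal.ofNat_ne_top hp2
    simpa using this
  obtain ⟨h3, h4⟩ := inv_Q hq2
  have h5 : 1 / 2 ≤ 1 / p.toReal := one_div_le_one_div_of_le (by linarith) h2
  unfold rate
  rw [abs_of_nonpos (by linarith), abs_of_nonneg (by linarith)]
  ring

lemma extremal_JJ {𝕜 : Type*} [RCLike 𝕜] {p q : ℝ≥0∞} [Fact (1 ≤ p)] [Fact (1 ≤ q)]
    (hp2 : p ≤ 2) (hq2 : 2 ≤ q) (hp : p ≠ ∞) :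
    ExtremalRate (rate p + rate q) (JJ 𝕜 (hp2.trans hq2) hp) := by
  have h1 := one_le_P (p := p) hp
  obtain ⟨h3, h4⟩ := inv_Q hq2
  have h2 : p.toReal ≤ 2 := by
    have := ENNReal.toReal_mono ENNReal.ofNat_ne_top hp2
    simpa using this
  have h5 : 1 / 2 ≤ 1 / p.toReal := one_div_le_one_div_of_le (by linarith) h2
  have h6 : 1 / p.toReal ≤ 1 := by rw [div_le_one (by linarith)]; exact h1
  intro n
  have ha := a_JJ (𝕜 := 𝕜) (hp2.trans hq2) hp n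
  have hh := fun k => h_JJ (𝕜 := 𝕜) hp2 hq2 (hp2.trans hq2) hp k
  rw [rate_add hp2 hq2]
  refine ⟨ha, hh n, ?_⟩
  have hg := geom_rate n (JJ 𝕜 (hp2.trans hq2) hp) (by linarith) (by linarith) hh
  refine hg.trans ?_
  have he : 0 < Real.exp 1 := Real.exp_pos 1
  nlinarith

lemma rate_add' {p q : ℝ≥0∞} [Fact (1 ≤ p)] [Fact (1 ≤ q)] (hp2 : 2 ≤ p) (hq2 : q ≤ 2) :
    rate p + rate q = 1 / q.toReal - 1 / p.toReal := by
  rw [add_comm]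
  exact rate_add hq2 hp2

/-- **Comparison of approximation numbers and Hilbert numbers with constants adapted to the
spaces.**  (1) Let `a = 1/2` or let `X` be isometric to a quotient of a subspace of `L_p(μ)` and
`a = |1/2 - 1/p|`; let `b = 1/2` or let `Y` be isometric to a subspace of `L_q(ν)` and
`b = |1/2 - 1/q|`, where `1 ≤ p, q ≤ ∞` (with `1 / ∞ = 0`).  Then for all operators `S : X → Y` and
all `n` the comparison holds with the constant `(n+1)^(a+b)`.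
(2) For `p ≤ 2 ≤ q` the exponent cannot be lowered: the formal identity `S : ℓ_p → ℓ_q` has
`a_n(S) ≥ 1/2`, `h_n(S) ≤ 4 (n+1)^(-ρ)` and `(n+1)^ρ G_n(S) ≤ 8 e a_n(S)` for all `n`, with
`ρ = |1/2 - 1/p| + |1/2 - 1/q|`.
(3) For `q ≤ 2 ≤ p` the exponent cannot be lowered: for every `n` some `S : ℓ_p^N → ℓ_q^N`,
`N = 2n + 2` (the formal identity), has `a_n(S) ≥ (n+1)^ρ` and `G_n(S) ≤ 2 e`. -/
theorem result (𝕜 : Type*) [RCLike 𝕜] :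
    (∀ (X : Type*) [NormedAddCommGroup X] [NormedSpace 𝕜 X]
      (Y : Type*) [NormedAddCommGroup Y] [NormedSpace 𝕜 Y]
      (Ω₁ : Type*) [MeasurableSpace Ω₁] (μ : Measure Ω₁) (p : ℝ≥0∞) [Fact (1 ≤ p)]
      (Ω₂ : Type*) [MeasurableSpace Ω₂] (ν : Measure Ω₂) (q : ℝ≥0∞) [Fact (1 ≤ q)] (a b : ℝ)
      (S : X →L[𝕜] Y) (n : ℕ), DomainRate 𝕜 X μ p a → CodomainRate 𝕜 Y ν q b →
      Bound (((n : ℝ) + 1) ^ (a + b)) S n) ∧
    (∀ (p q : ℝ≥0∞) [Fact (1 ≤ p)] [Fact (1 ≤ q)],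
      (p ≤ 2 → 2 ≤ q → OptInf 𝕜 p q) ∧ (2 ≤ p → q ≤ 2 → ∀ n : ℕ, OptFin 𝕜 p q n (2 * n + 2))) := by
  refine ⟨fun X _ _ Y _ _ Ω₁ _ μ p _ Ω₂ _ ν q _ a b S n hX hY => ?_,
    fun p q _ _ => ⟨fun hp2 hq2 => ?_, fun hp2 hq2 n => ?_⟩⟩
  · apply bound_rpow S n
    · rcases hX with rfl | ⟨h, rfl⟩
      · exact dom_half _
      · exact dom_quotSub h _
    · rcases hY with rfl | ⟨h, rfl⟩
      · exact cod_half _
      · exact cod_subLp h _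
  · have hp : p ≠ ∞ := ne_top_of_le_ne_top ENNReal.ofNat_ne_top hp2
    exact ⟨JJ 𝕜 (hp2.trans hq2) hp, fun f k => JJ_apply _ hp f k, extremal_JJ hp2 hq2 hp⟩
  · refine ⟨II 𝕜 p q (2 * n + 2), ?_, geom_II n⟩
    rw [rate_add' hp2 hq2]
    have h := a_II (𝕜 := 𝕜) (p := p) (q := q) (N := 2 * n + 2) hq2 hp2 (n := n) (m := n + 1)
      (by omega) (Nat.succ_pos n)
    push_cast at h
    exact h

end Pool.Agent.Results.MP_69de12_an.LpRates
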